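import Pool.Agent.K6.H85.SC.Part
import Pool.Agent.N113.BT.Corner
import Pool.Agent.Y102.V12

set_option autoImplicit false
set_option linter.unusedSectionVars false
set_option linter.unusedVariables false

/-!
# Good parts on which the Lie algebra acts through a Lie algebra of type `A_1` and a centre
-/

open Module Function TensorProduct Matrix

noncomputable section

namespace Pool.Agent.K6.H85.SC

open Pool.Agent.Y102 Pool.Agent.W516.DR Pool.Agent.H204R3.GP Pool.Agent.W516.KC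
  Pool.Agent.H204R3.SP Pool.Agent.TH119.MX Pool.Agent.N113.BT

variable {g d : ℕ} {C : AbVar g}
  {P : Matrix (Fin (2 * g)) (Fin d) ℂ} {Q : Matrix (Fin d) (Fin (2 * g)) ℂ}

/-- The compression of an endomorphism to the summand. -/
def ka (P : Matrix (Fin (2 * g)) (Fin d) ℂ) (Q : Matrix (Fin d) (Fin (2 * g)) ℂ) :
    Module.End ℂ (ℂ ⊗[ℚ] (Fin (2 * g) → ℚ)) →ₗ[ℂ] Matrix (Fin d) (Fin d) ℂ where
  toFun T := Q * (matE (2 * g)).symm T * P
  map_add' x y := by rw [map_add, Matrix.mul_add, Matrix.add_mul]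
  map_smul' c x := by rw [map_smul, Matrix.mul_smul, Matrix.smul_mul, RingHom.id_apply]

theorem ka_matE (X : Matrix (Fin (2 * g)) (Fin (2 * g)) ℂ) :
    ka P Q (matE (2 * g) X) = Q * X * P := by
  change Q * (matE (2 * g)).symm (matE (2 * g) X) * P = _
  rw [AlgEquiv.symm_apply_apply]

theorem ka_bc (X : Module.End ℚ C.H1) : ka P Q (X.baseChange ℂ) = Q * toC X * P := by
  have h1 : matE (2 * g) (toC X) = X.baseChange ℂ := matE_toC X
  rw [← h1, ka_matE]

theorem comm_mat {X : Matrix (Fin (2 * g)) (Fin (2 * g)) ℂ}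
    (h : matE (2 * g) (P * Q) * matE (2 * g) X = matE (2 * g) X * matE (2 * g) (P * Q)) :
    P * Q * X = X * (P * Q) := by
  rw [← map_mul, ← map_mul] at h
  exact (matE (2 * g)).injective h

theorem io_ka (hQP : Q * P = 1) {T : Module.End ℂ (ℂ ⊗[ℚ] (Fin (2 * g) → ℚ))}
    (hT : matE (2 * g) (P * Q) * T = T * matE (2 * g) (P * Q)) :
    io P Q (ka P Q T) = matE (2 * g) (P * Q) * T := by
  obtain ⟨X, rfl⟩ := (matE (2 * g)).surjective T
  have h1 := comm_mat hT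
  rw [ka_matE, io_apply, ← map_mul]
  congr 1
  have e1 : P * (Q * X * P) * Q = P * Q * (X * (P * Q)) := by simp only [Matrix.mul_assoc]
  have e2 : P * Q * (P * Q * X) = P * (Q * P) * Q * X := by simp only [Matrix.mul_assoc]
  rw [e1, ← h1, e2, hQP, Matrix.mul_one]

theorem ka_mul (hQP : Q * P = 1) {T T' : Module.End ℂ (ℂ ⊗[ℚ] (Fin (2 * g) → ℚ))}
    (hT : matE (2 * g) (P * Q) * T' = T' * matE (2 * g) (P * Q)) :
    ka P Q (T * T') = ka P Q T * ka P Q T' := by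
  obtain ⟨X, rfl⟩ := (matE (2 * g)).surjective T
  obtain ⟨Y, rfl⟩ := (matE (2 * g)).surjective T'
  have h1 := comm_mat hT
  rw [← map_mul, ka_matE, ka_matE, ka_matE]
  have e1 : Q * X * P * (Q * Y * P) = Q * X * (P * Q * Y) * P := by simp only [Matrix.mul_assoc]
  have e2 : Q * X * (Y * (P * Q)) * P = Q * (X * Y) * P * (Q * P) := by
    simp only [Matrix.mul_assoc]
  rw [e1, h1, e2, hQP, Matrix.mul_one]

theorem ka_io (hQP : Q * P = 1) (z : Matrix (Fin d) (Fin d) ℂ) : ka P Q (io P Q z) = z := by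
  rw [io_apply, ka_matE]
  have e1 : Q * (P * z * Q) * P = (Q * P) * z * (Q * P) := by simp only [Matrix.mul_assoc]
  rw [e1, hQP, Matrix.one_mul, Matrix.mul_one]

/-- Comparison of products in the summand. -/
theorem io_comm (hQP : Q * P = 1) {T : Module.End ℂ (ℂ ⊗[ℚ] (Fin (2 * g) → ℚ))}
    (hT : matE (2 * g) (P * Q) * T = T * matE (2 * g) (P * Q)) {z : Matrix (Fin d) (Fin d) ℂ} :
    io P Q z * T = T * io P Q z ↔ z * ka P Q T = ka P Q T * z := by
  have hl : io P Q z * matE (2 * g) (P * Q) = io P Q z := by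
    rw [← io_one, ← io_mul hQP, mul_one]
  have hr : matE (2 * g) (P * Q) * io P Q z = io P Q z := by
    rw [← io_one, ← io_mul hQP, one_mul]
  have e1 : io P Q z * T = io P Q (z * ka P Q T) := by
    rw [io_mul hQP, io_ka hQP hT, ← mul_assoc, hl]
  have e2 : T * io P Q z = io P Q (ka P Q T * z) := by
    rw [io_mul hQP, io_ka hQP hT, hT, mul_assoc, hr]
  rw [e1, e2]
  exact ⟨fun h => io_inj hQP h, fun h => by rw [h]⟩

/-- **Parts of type `A_1`**: the Lie algebra acts on the summand `W` through a Lie algebra of type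
`A_1` in separated position. -/
theorem gPart_A1 (hQP : Q * P = 1) (hst : ∀ X ∈ C.NA, P * Q * toC X = toC X * (P * Q)) {k : ℕ}
    {φ : Fin k → TA.S →ₗ[ℂ] Matrix (Fin d) (Fin d) ℂ}
    (h : TA.TypeA φ ((cx C.NA).map (ka P Q))) : GPart C (matE (2 * g) (P * Q)) := by
  have hcomm : ∀ x ∈ cx C.NA, matE (2 * g) (P * Q) * x = x * matE (2 * g) (P * Q) := by
    refine cx_comm (T := matE (2 * g) (P * Q)) fun X hX => ?_
    have h1 : matE (2 * g) (toC X) = X.baseChange ℂ := matE_toC X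
    rw [← h1, ← map_mul, ← map_mul, hst X hX]
  refine ⟨hcomm, fun 𝔮 hq => ?_⟩
  have hc𝔮 : ∀ x ∈ cx 𝔮, matE (2 * g) (P * Q) * x = x * matE (2 * g) (P * Q) :=
    fun x hx => hcomm x (cx_mono hq.le hx)
  have hbr : ∀ x ∈ cx 𝔮, ∀ y ∈ cx 𝔮, ka P Q x * ka P Q y - ka P Q y * ka P Q x =
      ka P Q (x * y - y * x) := fun x hx y hy => by
    rw [map_sub, ka_mul hQP (hc𝔮 y hy), ka_mul hQP (hc𝔮 x hx)]
  have hbr' : ∀ x ∈ cx C.NA, ∀ y ∈ cx C.NA, ka P Q x * ka P Q y - ka P Q y * ka P Q x =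
      ka P Q (x * y - y * x) := fun x hx y hy => by
    rw [map_sub, ka_mul hQP (hcomm y hy), ka_mul hQP (hcomm x hx)]
  have hle : cx (der 𝔮) ≤ cx 𝔮 := cx_mono hq.der_le
  have hphi : ∀ (i : Fin k) {x : TA.S}, x.trace = 0 → φ i x ∈ (cx 𝔮).map (ka P Q) := by
    intro i x hx
    refine h.phi_mem (L := (cx 𝔮).map (ka P Q)) (D := (cx (der 𝔮)).map (ka P Q))
      (Submodule.map_mono (cx_mono hq.le)) (Submodule.map_mono hle) ?_ ?_ ?_ ?_ i hx
    · rintro _ ⟨x, hx, rfl⟩ _ ⟨y, hy, rfl⟩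
      rw [hbr x hx y hy]
      exact ⟨_, hq.cx_br' x hx y hy, rfl⟩
    · rintro _ ⟨x, hx, rfl⟩
      have h1 := hq.cx_perfect hx
      clear hx
      induction h1 using Submodule.span_induction with
      | mem z hz =>
        obtain ⟨x, hx, y, hy, rfl⟩ := hz
        refine Submodule.subset_span ⟨_, ⟨x, hx, rfl⟩, _, ⟨y, hy, rfl⟩, ?_⟩
        rw [hbr x (hle hx) y (hle hy)]
      | zero => rw [map_zero]; exact Submodule.zero_mem _
      | add a b _ _ ha hb => rw [map_add]; exact Submodule.add_mem _ ha hb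
      | smul c a _ ha => rw [map_smul]; exact Submodule.smul_mem _ c ha
    · rintro _ ⟨x, hx, rfl⟩
      obtain ⟨Z, hZ, e, he, rfl, hc⟩ := hq.cx_dec x hx
      refine ⟨_, ⟨Z, hZ, rfl⟩, _, ⟨e, he, rfl⟩, map_add _ _ _, ?_⟩
      rintro _ ⟨y, hy, rfl⟩
      rw [← ka_mul hQP (hc𝔮 y hy), ← ka_mul hQP (hc𝔮 Z hZ), hc y hy]
    · intro T hT
      rintro _ ⟨x, hx, rfl⟩
      rw [← io_comm hQP (hcomm x hx)]
      refine hq.cx_com (io P Q T) (fun y hy => ?_) x hx
      rw [io_comm hQP (hc𝔮 y hy)]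
      exact hT _ ⟨y, hy, rfl⟩
  intro X hX
  induction hX using Submodule.span_induction with
  | mem X hX =>
    obtain ⟨X, hX, Y, hY, rfl⟩ := hX
    obtain ⟨ξ, hξ⟩ := h.dec _ ⟨_, bc_mem hX, rfl⟩
    obtain ⟨η, hη⟩ := h.dec _ ⟨_, bc_mem hY, rfl⟩
    choose x hx hx' using fun i => hphi i (hξ.1 i)
    choose y hy hy' using fun i => hphi i (hη.1 i)
    have h1 := h.br ⟨_, bc_mem hX, rfl⟩ ⟨_, bc_mem hY, rfl⟩ hξ hη
    rw [hbr' _ (bc_mem hX) _ (bc_mem hY)] at h1
    have hy0 : ∀ i, x i * y i - y i * x i ∈ cx (der 𝔮) := fun i => by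
      refine cx_br (T := cx (Pool.Agent.Y102.der 𝔮)) (fun X hX Y hY => ?_) _ (hx i) _ (hy i)
      rw [← bc_br]
      exact bc_mem (Submodule.subset_span ⟨X, hX, Y, hY, rfl⟩)
    have hsum : ∑ i, (x i * y i - y i * x i) ∈ cx (der 𝔮) := Submodule.sum_mem _ fun i _ => hy0 i
    refine ⟨∑ i, (x i * y i - y i * x i), hsum, ?_⟩
    have hXY := bc_mem (C.NA_bracket hX hY)
    have hk : ka P Q ((X * Y - Y * X).baseChange ℂ) = ka P Q (∑ i, (x i * y i - y i * x i)) := by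
      rw [bc_br, h1, map_sum]
      refine Finset.sum_congr rfl fun i _ => ?_
      rw [← hbr _ (hx i) _ (hy i), hx', hy', map_sub, h.mul, h.mul]
    rw [← io_ka hQP (hcomm _ hXY), ← io_ka hQP (hc𝔮 _ (hle hsum)), hk]
  | zero => exact ⟨0, Submodule.zero_mem _, by rw [LinearMap.baseChange_zero]⟩
  | add a b _ _ ha hb =>
    obtain ⟨x, hx, h1⟩ := ha
    obtain ⟨y, hy, h2⟩ := hb
    exact ⟨x + y, Submodule.add_mem _ hx hy, by rw [LinearMap.baseChange_add, mul_add, mul_add,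
      h1, h2]⟩
  | smul c a _ ha =>
    obtain ⟨x, hx, h1⟩ := ha
    refine ⟨(c : ℂ) • x, Submodule.smul_mem _ _ hx, ?_⟩
    have h2 : (c • a).baseChange ℂ = (c : ℂ) • (a.baseChange ℂ : Module.End ℂ (ℂ ⊗[ℚ] C.H1)) := by
      rw [LinearMap.baseChange_smul]
      exact (Rat.cast_smul_eq_qsmul ℂ c _).symm
    rw [h2, mul_smul_comm, mul_smul_comm, h1]

end Pool.Agent.K6.H85.SC
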