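import Pool.Agent.K6.H85.SC.Main

set_option autoImplicit false
set_option linter.unusedSectionVars false
set_option linter.unusedVariables false

/-!
# The conditions in terms of matrices
-/

open Module Matrix Function Pool.Agent.Y102 Pool.Agent.R917.OM Pool.Agent.R917.BX Pool.Agent.W516.DR
  Pool.Agent.H204R3.GP Pool.Agent.N208.UR Pool.Agent.N208.OneM

noncomputable section

namespace Pool.Agent.K6.H85.SC

open scoped TensorProduct

section Fac

open Pool.Agent.N208.AM Pool.Agent.N208.AD Pool.Agent.N208.BT Pool.Agent.N208.CT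
  Pool.Agent.R917.DT Pool.Agent.N208.OU Pool.Agent.N113.BT

variable {g g' : ℕ} {A : AbVar g} {C : AbVar g'} {f : A.H1 →ₗ[ℚ] C.H1} {p : C.H1 →ₗ[ℚ] A.H1}

/-- The matrix of the complex structure. -/
def jM (A : AbVar g) : Matrix (Fin (2 * g)) (Fin (2 * g)) ℂ :=
  Matrix.of fun l j => ((A.lam.repr (Complex.I • A.lam j) l : ℝ) : ℂ)

theorem rel_rs (h : Fac A C f p) {X : Module.End ℚ C.H1} (hX : X ∈ C.NA)
    {M : Matrix (Fin (2 * g)) (Fin (2 * g)) ℚ} (hM : Rel (hB p) X M) :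
    (cq M)ᵀ = Pool.Agent.Y102.toC (rs f p X : (Fin (2 * g) → ℚ) →ₗ[ℚ] (Fin (2 * g) → ℚ)) := by
  have hr : Rel (hB p) X
      (LinearMap.toMatrix' (rs f p X : (Fin (2 * g) → ℚ) →ₗ[ℚ] (Fin (2 * g) → ℚ)))ᵀ := by
    intro a i
    refine MultilinearMap.ext fun v => ?_
    rw [dact_apply, _root_.sum_apply]
    have h1 : ∀ k : Fin 1, hB p a i (update v k (X (v k))) = p (X (v 0)) a := by
      intro k
      rw [hB_apply, Subsingleton.elim k 0, update_self]
    change ∑ k : Fin 1, hB p a i (update v k (X (v k))) = _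
    rw [Finset.sum_congr rfl fun k _ => h1 k, Finset.sum_const, Finset.card_univ,
      Fintype.card_fin, one_smul]
    have h2 : p (X (v 0)) = rs f p X (p (v 0)) := by
      rw [rs_apply]
      have h3 := congrArg (fun T : Module.End ℚ C.H1 => T (v 0)) (C.NA_comm hX h.mem_EA)
      change X (f (p (v 0))) = f (p (X (v 0))) at h3
      rw [h3, h.pf]
    rw [h2]
    have h3 := LinearMap.toMatrix'_mulVec
      (rs f p X : (Fin (2 * g) → ℚ) →ₗ[ℚ] (Fin (2 * g) → ℚ)) (p (v 0))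
    have h4 := congrFun h3 a
    change _ = (rs f p X (p (v 0)) : Fin (2 * g) → ℚ) a at h4
    rw [← h4]
    change ∑ b, LinearMap.toMatrix'
      (rs f p X : (Fin (2 * g) → ℚ) →ₗ[ℚ] (Fin (2 * g) → ℚ)) a b * (p (v 0) : Fin (2 * g) → ℚ) b = _
    refine Finset.sum_congr rfl fun b _ => ?_
    rw [_root_.smul_apply, hB_apply, Matrix.transpose_apply, smul_eq_mul]
  rw [hM.uniq (mot h).li hr, Pool.Agent.Y102.toC_eq]
  ext i j
  rfl

/-- The matrix of the complex structure of the factor. -/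
theorem jM_eq (h : Fac A C f p) {N : Matrix (Fin (2 * g)) (Fin (2 * g)) ℝ}
    (hN : RelR (hB p) (AbVar.JJ : (Fin g' → ℂ) →ₗ[ℝ] (Fin g' → ℂ)) N) : (cxm N)ᵀ = jM A := by
  have h1 := NR_JJ h hN
  ext l j
  have h2 := h1 (A.lam j) l
  rw [AbVar.JJ_apply] at h2
  change (cxm N) j l = ((A.lam.repr (Complex.I • A.lam j) l : ℝ) : ℂ)
  rw [h2, Finset.sum_eq_single j]
  · rw [A.lam.repr_self, Finsupp.single_eq_same, mul_one]
    rfl
  · intro b _ hb
    rw [A.lam.repr_self, Finsupp.single_eq_of_ne hb, mul_zero]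
  · intro h0
    exact absurd (Finset.mem_univ j) h0

/-- The condition on the domain, from matrices. -/
theorem dm_of (h : Fac A C f p) {E : Matrix (Fin (2 * g')) (Fin (2 * g')) ℂ}
    (hD : ∀ (k : ℕ) (c : Fin k → ℂ) (X : Fin k → Module.End ℚ C.H1), (∀ j, X j ∈ der C.NA) →
      E * ∑ j, c j • Pool.Agent.Y102.toC (X j) = 0 →
      (∑ j, c j • Pool.Agent.Y102.toC (rs f p (X j) :
        (Fin (2 * g) → ℚ) →ₗ[ℚ] (Fin (2 * g) → ℚ))) * jM A =
      jM A * ∑ j, c j • Pool.Agent.Y102.toC (rs f p (X j) :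
        (Fin (2 * g) → ℚ) →ₗ[ℚ] (Fin (2 * g) → ℚ))) :
    Dm p (matE (2 * g') E) := by
  intro N hN q hq h0
  obtain ⟨k, c, X, hX⟩ := Submodule.mem_span_set'.1 hq
  choose Y hY M hM hYe using fun j => (X j).2
  have h1 : q.1 = matE (2 * g') (∑ j, c j • Pool.Agent.Y102.toC (Y j)) := by
    rw [← hX, Prod.fst_sum, map_sum]
    refine Finset.sum_congr rfl fun j _ => ?_
    rw [map_smul, matE_toC, Prod.smul_fst, hYe j]
  have h2 : q.2ᵀ = ∑ j, c j • Pool.Agent.Y102.toC (rs f p (Y j) :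
        (Fin (2 * g) → ℚ) →ₗ[ℚ] (Fin (2 * g) → ℚ)) := by
    rw [← hX, Prod.snd_sum, Matrix.transpose_sum]
    refine Finset.sum_congr rfl fun j _ => ?_
    rw [Prod.smul_snd, hYe j, Matrix.transpose_smul, rel_rs h (der_NA_le (hY j)) (hM j)]
  rw [h1, ← map_mul] at h0
  have h3 := hD k c Y hY ((matE (2 * g')).injective (h0.trans (map_zero _).symm))
  rw [← h2, ← jM_eq h hN, ← Matrix.transpose_mul, ← Matrix.transpose_mul] at h3
  exact (Matrix.transpose_injective h3).symm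

/-- Without factors of type IV the centre is zero. -/
theorem rigid_of_NT4 (h : NT4 C) : Pool.Agent.N208.CT.Rigid C := by
  intro X _ _ Y hY
  have h1 := C.CN_le_ZA hY
  have h2 : Y = 0 := h Y h1.1 h1.2.2 h1.2.1
  subst h2
  intro r v x y hv _ hy _
  refine Finset.sum_eq_zero fun k _ => ?_
  have h3 := hy k
  rw [LinearMap.baseChange_zero, LinearMap.zero_apply] at h3
  exact (smul_eq_zero.1 h3.symm).resolve_right (hv k)

end Fac

end Pool.Agent.K6.H85.SC
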