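import Pool.Agent.N113.BT.Core
import Pool.Agent.N208.OU.Drv

set_option autoImplicit false
set_option linter.unusedSectionVars false
set_option linter.unusedVariables false

/-!
# Factors of abelian varieties whose domain is the domain of a rigid part
-/

open Module Function TensorProduct Matrix

noncomputable section

namespace Pool.Agent.K6.H85.SC

open Pool.Agent.Y102 Pool.Agent.W516.DR Pool.Agent.H204R3.GP Pool.Agent.W516.KC
  Pool.Agent.H204R3.SP Pool.Agent.TH119.MX Pool.Agent.R917 Pool.Agent.N208.AM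
  Pool.Agent.N208.AD Pool.Agent.N208.BT Pool.Agent.N208.CT Pool.Agent.R917.DT
  Pool.Agent.N113.BT

/-- A good part of the first homology, with the projector `e`: the derived algebra of a full
subalgebra and the derived algebra have the same image in the endomorphisms of the part. -/
structure GPart {g : ℕ} (A : AbVar g) (e : Module.End ℂ (ℂ ⊗[ℚ] A.H1)) : Prop where
  comm : ∀ x ∈ cx A.NA, e * x = x * e
  der : ∀ 𝔮 : Submodule ℚ (Module.End ℚ A.H1), A.Full 𝔮 → ∀ X ∈ der A.NA,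
    ∃ y ∈ cx (Pool.Agent.Y102.der 𝔮), e * X.baseChange ℂ = e * y

theorem _root_.Pool.Agent.N113.BT.RigPart.toGPart {g : ℕ} {A : AbVar g}
    {e : Module.End ℂ (ℂ ⊗[ℚ] A.H1)} {S : Submodule ℂ (Module.End ℂ (ℂ ⊗[ℚ] A.H1))}
    (h : RigPart A e S) : GPart A e :=
  ⟨h.comm, fun _ hq _ hX => h.der hq hX⟩

section Gen

variable {g : ℕ} {A : AbVar g} {s n : ℕ} {r : Fin s → ℕ} {B : Fin n → Ten A r} {w : Fin s → ℤ}
  {P : Matrix (Fin n) (Fin n) ℂ} {N : Matrix (Fin n) (Fin n) ℝ}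
  {e : Module.End ℂ (ℂ ⊗[ℚ] A.H1)}

/-- The derived part of the complex structure, for a full subalgebra. -/
theorem N_memG (h : Mot w B P) {𝔮 : Submodule ℚ (Module.End ℚ A.H1)} (hq : A.Full 𝔮)
    (hr : GPart A e) (hN : RelR B AbVar.JJ N) {Nc Nd : Matrix (Fin n) (Fin n) ℝ}
    (hNc : Nc ∈ spR B (cenA A : Set (Module.End ℚ A.H1)))
    (hNd : Nd ∈ spR B (der A.NA : Set (Module.End ℚ A.H1))) (hNe : N = Nc + Nd)
    (hα : ∀ p ∈ pC B (der A.NA), e * p.1 = 0 → p.2 * cxm N = cxm N * p.2) :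
    Nd ∈ spR B (der 𝔮 : Set (Module.End ℚ A.H1)) := by
  have hdd : der 𝔮 ≤ der A.NA := by
    unfold der
    exact Submodule.span_mono fun _ ⟨X, hX, Y, hY, e⟩ => ⟨X, hq.le hX, Y, hq.le hY, e⟩
  have hdN : der 𝔮 ≤ A.NA := fun Z hZ => der_NA_le (hdd hZ)
  have hdb : ∀ X ∈ der 𝔮, ∀ Y ∈ der 𝔮, X * Y - Y * X ∈ der 𝔮 := fun X hX Y hY =>
    Submodule.subset_span ⟨X, hq.der_le hX, Y, hq.der_le hY, rfl⟩
  have hle : spR B (der A.NA : Set (Module.End ℚ A.H1)) ≤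
      spR B (A.NA : Set (Module.End ℚ A.H1)) := spR_mono der_NA_le
  have hnm : nK B e ≤ spR B (der A.NA : Set (Module.End ℚ A.H1)) := by
    rintro _ ⟨p, hp, -, rfl⟩
    exact (pC_re hp).1
  refine N113.BT.mem_of_sup (dat h hN hNc hNd hNe) (spR_mono hdd) (spR_br hdb) hnm ?_ ?_ ?_
  · rintro x hx z ⟨p, hp, h1, rfl⟩
    induction hx using Submodule.span_induction with
    | mem x hx =>
      obtain ⟨X, hX, M, hM, rfl⟩ := hx
      refine ⟨_, N113.BT.pC_br h hX hM hp, ?_, ?_⟩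
      · change e * (p.1 * X.baseChange ℂ - X.baseChange ℂ * p.1) = 0
        rw [mul_sub, ← mul_assoc, h1, zero_mul, ← mul_assoc, hr.comm _ (bc_mem (der_NA_le hX)),
          mul_assoc, h1, mul_zero, sub_zero]
      · change _ = reM (cq M * p.2 - p.2 * cq M)
        rw [reM_sub, ← cxm_rq, reM_mul, reM_mul', RLie.br_apply]
    | zero => rw [LinearMap.map_zero₂]; exact Submodule.zero_mem _
    | add a b _ _ ha hb => rw [LinearMap.map_add₂]; exact Submodule.add_mem _ ha hb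
    | smul c a _ ha => rw [LinearMap.map_smul₂]; exact Submodule.smul_mem _ _ ha
  · intro z hz
    have h2 : RLie.br N z = 0 := by
      obtain ⟨p, hp, h1, rfl⟩ := hz
      have h3 := congrArg reM (hα p hp h1)
      rw [reM_mul, reM_mul'] at h3
      rw [RLie.br_apply, h3, sub_self]
    rw [hNe, LinearMap.map_add₂, cenA_br h hNc (hle (hnm hz)), zero_add] at h2
    exact h2
  · rw [spR, Submodule.span_le]
    rintro _ ⟨X, hX, M, hM, rfl⟩
    obtain ⟨y, hy, h1⟩ := hr.der 𝔮 hq X hX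
    obtain ⟨y', hy'⟩ := exists_pC h hdN hy
    have h2 : ((X.baseChange ℂ : Module.End ℂ (ℂ ⊗[ℚ] A.H1)), cq M) ∈ pC B (der A.NA) :=
      Submodule.subset_span ⟨X, hX, M, hM, rfl⟩
    have h3 := Submodule.sub_mem _ h2 (pC_mono hdd hy')
    have h4 : rq M = reM y' + (rq M - reM y') := by abel
    change rq M ∈ _
    rw [h4]
    refine Submodule.add_mem_sup (pC_re hy').1 ⟨_, h3, ?_, ?_⟩
    · change e * (X.baseChange ℂ - y) = 0
      rw [mul_sub, h1, sub_self]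
    · change _ = reM (cq M - y')
      rw [reM_sub, reM_cq]

end Gen

section Fac

variable {g g' : ℕ} {A : AbVar g} {C : AbVar g'} {f : A.H1 →ₗ[ℚ] C.H1} {p : C.H1 →ₗ[ℚ] A.H1}
  {𝔮 : Submodule ℚ (Module.End ℚ C.H1)} {e : Module.End ℂ (ℂ ⊗[ℚ] C.H1)}

open Pool.Agent.N208.OU

/-- The condition on the domain of the factor. -/
def Dm (p : C.H1 →ₗ[ℚ] A.H1) (e : Module.End ℂ (ℂ ⊗[ℚ] C.H1)) : Prop :=
  ∀ N : Matrix (Fin (2 * g)) (Fin (2 * g)) ℝ,
    RelR (hB p) (AbVar.JJ : (Fin g' → ℂ) →ₗ[ℝ] (Fin g' → ℂ)) N →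
    ∀ q ∈ pC (hB p) (der C.NA), e * q.1 = 0 → q.2 * cxm N = cxm N * q.2

/-- The components of the complex structure, without a condition on the centre. -/
theorem ZZ_JG (h : Fac A C f p) (hq : C.Full 𝔮) (hr : GPart C e) (hα : Dm p e)
    (r : ℝ →ₗ[ℚ] ℚ) : A.cmpE r AbVar.JJ ∈ ZZ f p 𝔮 := by
  obtain ⟨N, hN, t, X, M, h1, h2⟩ := exists_J (mot h)
  have h4 : N ∈ spR (hB p) (C.NA : Set (Module.End ℚ C.H1)) := by
    rw [h2]
    exact Submodule.sum_mem _ fun k _ => Submodule.smul_mem _ _ (mem_spR (h1 k).1 (h1 k).2)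
  obtain ⟨Nc, hNc, Nd, hNd, hNe⟩ := exists_dec (mot h) h4
  have h5 := N_memG (mot h) hq hr hN hNc hNd hNe (hα N hN)
  rw [cenA_eq] at hNc
  obtain ⟨Yc, hYc, hYc'⟩ := exists_NR h (𝔥 := ZZ f p 𝔮) (𝔮 := C.CN)
    (fun X hX => Submodule.mem_sup_left (Submodule.mem_map_of_mem hX)) hNc
  obtain ⟨Yd, hYd, hYd'⟩ := exists_NR h (𝔥 := ZZ f p 𝔮) (𝔮 := der 𝔮)
    (fun X hX => Submodule.mem_sup_right (Submodule.mem_map_of_mem hX)) h5
  have h6 := hYc'.add hYd'
  rw [← hNe] at h6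
  have h7 := cmpE_mem (Submodule.add_mem _ hYc hYd) r
  rwa [h6.uniq (NR_JJ h hN)] at h7

/-- **Factors of abelian varieties with a rigid centre.** -/
theorem detJ_ofG (h : Fac A C f p) (hrig : N208.CT.Rigid C) (hr : GPart C e) (hα : Dm p e) :
    DetJ A := by
  intro 𝔥 hle hbr h0 hRC r
  have hF := h.qq_full hbr h0
  have hC := CN_le hF (h.qq_RC hRC) hrig
  have h1 := ZZ_JG h hF hr hα r
  refine (show ZZ f p (Fac.qq f p 𝔥) ≤ 𝔥 from sup_le ?_ ?_) h1
  · rintro _ ⟨X, hX, rfl⟩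
    exact (hC hX).2
  · rintro _ ⟨X, hX, rfl⟩
    exact (hF.der_le hX).2

end Fac

end Pool.Agent.K6.H85.SC
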